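import Mathlib
set_option autoImplicit false

/-!
# A Frobenius nonclassical surface whose Gauss map has no `p`-th power coordinates: the polynomial
-/

namespace Pool.Agent.R49.FN

open MvPolynomial

/-- the surface `(x0 x1^(q-1) - x0^q)(x3^q - x3 x2^(q-1)) = x1 x2 (x2^(q-1) - x1^(q-1))^2`, `q = r + 2` -/
noncomputable def F (R : Type*) [CommRing R] (r : ℕ) : MvPolynomial (Fin 4) R :=
  (X 0 * X 1 ^ (r + 1) - X 0 ^ (r + 2)) * (X 3 ^ (r + 2) - X 3 * X 2 ^ (r + 1)) -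
    X 1 * X 2 * (X 2 ^ (r + 1) - X 1 ^ (r + 1)) ^ 2

lemma F_map {R S : Type*} [CommRing R] [CommRing S] (f : R →+* S) (r : ℕ) :
    map f (F R r) = F S r := by
  simp [F]

lemma F_hom (R : Type*) [CommRing R] (r : ℕ) : (F R r).IsHomogeneous (2 * (r + 2)) := by
  have hX : ∀ i : Fin 4, (X i : MvPolynomial (Fin 4) R).IsHomogeneous 1 := fun i =>
    isHomogeneous_X R i
  have hp : ∀ (i : Fin 4) (n : ℕ), (X i ^ n : MvPolynomial (Fin 4) R).IsHomogeneous n := fun i n => by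
    simpa using (hX i).pow n
  unfold F
  have h1 : (X 0 * X 1 ^ (r + 1) - X 0 ^ (r + 2) : MvPolynomial (Fin 4) R).IsHomogeneous (r + 2) := by
    refine IsHomogeneous.sub ?_ (hp 0 _)
    have := (hX 0).mul (hp 1 (r + 1))
    rwa [show 1 + (r + 1) = r + 2 by ring] at this
  have h2 : (X 3 ^ (r + 2) - X 3 * X 2 ^ (r + 1) : MvPolynomial (Fin 4) R).IsHomogeneous (r + 2) := by
    refine IsHomogeneous.sub (hp 3 _) ?_
    have := (hX 3).mul (hp 2 (r + 1))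
    rwa [show 1 + (r + 1) = r + 2 by ring] at this
  have h3 : (X 2 ^ (r + 1) - X 1 ^ (r + 1) : MvPolynomial (Fin 4) R).IsHomogeneous (r + 1) :=
    IsHomogeneous.sub (hp 2 _) (hp 1 _)
  refine IsHomogeneous.sub ?_ ?_
  · have := h1.mul h2
    rwa [show (r + 2) + (r + 2) = 2 * (r + 2) by ring] at this
  · have := ((hX 1).mul (hX 2)).mul (h3.pow 2)
    rwa [show 1 + 1 + (r + 1) * 2 = 2 * (r + 2) by ring] at this

section char

variable {k : Type*} [Field k] {r : ℕ} (hr : ((r : k) + 2) = 0)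

include hr

lemma pd_pow_q (i : Fin 4) (a : MvPolynomial (Fin 4) k) : pderiv i (a ^ (r + 2)) = 0 := by
  rw [Derivation.leibniz_pow, nsmul_eq_mul]
  have : ((r + 2 : ℕ) : MvPolynomial (Fin 4) k) = 0 := by
    have h : ((r + 2 : ℕ) : MvPolynomial (Fin 4) k) = C ((r + 2 : ℕ) : k) := (map_natCast C _).symm
    rw [h]
    push_cast
    rw [hr, map_zero]
  rw [this, zero_mul]

lemma pd_pow_q1 (i : Fin 4) (a : MvPolynomial (Fin 4) k) :
    pderiv i (a ^ (r + 1)) = -(a ^ r * pderiv i a) := by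
  rw [Derivation.leibniz_pow, nsmul_eq_mul]
  have : ((r + 1 : ℕ) : MvPolynomial (Fin 4) k) = -1 := by
    have h : ((r + 1 : ℕ) : MvPolynomial (Fin 4) k) = C ((r : k) + 2) - 1 := by
      push_cast
      simp only [map_add, map_natCast, map_ofNat]
      ring
    rw [h, hr, map_zero, zero_sub]
  rw [this, Nat.add_sub_cancel, smul_eq_mul]
  ring

lemma pd0 : pderiv 0 (F k r) = X 1 ^ (r + 1) * (X 3 ^ (r + 2) - X 3 * X 2 ^ (r + 1)) := by
  simp only [F, map_sub, Derivation.leibniz, pd_pow_q hr, pd_pow_q1 hr, smul_eq_mul, pow_two]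
  rw [pderiv_X_self, pderiv_X_of_ne (by decide : (1 : Fin 4) ≠ 0),
    pderiv_X_of_ne (by decide : (2 : Fin 4) ≠ 0), pderiv_X_of_ne (by decide : (3 : Fin 4) ≠ 0)]
  ring

lemma pd1 : pderiv 1 (F k r) =
    -(X 0 * X 1 ^ r * (X 3 ^ (r + 2) - X 3 * X 2 ^ (r + 1))) -
      X 2 * (X 2 ^ (r + 1) - X 1 ^ (r + 1)) ^ 2 -
      2 * X 1 ^ (r + 1) * X 2 * (X 2 ^ (r + 1) - X 1 ^ (r + 1)) := by
  simp only [F, map_sub, Derivation.leibniz, pd_pow_q hr, pd_pow_q1 hr, smul_eq_mul, pow_two]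
  rw [pderiv_X_self, pderiv_X_of_ne (by decide : (0 : Fin 4) ≠ 1),
    pderiv_X_of_ne (by decide : (2 : Fin 4) ≠ 1), pderiv_X_of_ne (by decide : (3 : Fin 4) ≠ 1)]
  ring

lemma pd2 : pderiv 2 (F k r) =
    (X 0 * X 1 ^ (r + 1) - X 0 ^ (r + 2)) * (X 3 * X 2 ^ r) -
      X 1 * (X 2 ^ (r + 1) - X 1 ^ (r + 1)) ^ 2 +
      2 * X 1 * X 2 ^ (r + 1) * (X 2 ^ (r + 1) - X 1 ^ (r + 1)) := by
  simp only [F, map_sub, Derivation.leibniz, pd_pow_q hr, pd_pow_q1 hr, smul_eq_mul, pow_two]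
  rw [pderiv_X_self, pderiv_X_of_ne (by decide : (0 : Fin 4) ≠ 2),
    pderiv_X_of_ne (by decide : (1 : Fin 4) ≠ 2), pderiv_X_of_ne (by decide : (3 : Fin 4) ≠ 2)]
  ring

lemma pd3 : pderiv 3 (F k r) = -((X 0 * X 1 ^ (r + 1) - X 0 ^ (r + 2)) * X 2 ^ (r + 1)) := by
  simp only [F, map_sub, Derivation.leibniz, pd_pow_q hr, pd_pow_q1 hr, smul_eq_mul, pow_two]
  rw [pderiv_X_self, pderiv_X_of_ne (by decide : (0 : Fin 4) ≠ 3),
    pderiv_X_of_ne (by decide : (1 : Fin 4) ≠ 3), pderiv_X_of_ne (by decide : (2 : Fin 4) ≠ 3)]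
  ring

/-- the surface is Frobenius nonclassical -/
lemma frob : ∑ i : Fin 4, X i ^ (r + 2) * pderiv i (F k r) =
    F k r * -(X 1 ^ (r + 1) + X 2 ^ (r + 1)) := by
  rw [Fin.sum_univ_four, pd0 hr, pd1 hr, pd2 hr, pd3 hr, F]
  ring

end char

end Pool.Agent.R49.FN
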