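import Pool.Agent.R49.FN.Base
set_option autoImplicit false

/-!
# The Gauss map has no `p`-th power coordinates; the twisted cubic
-/

namespace Pool.Agent.R49.FN

open MvPolynomial

variable {k : Type*} [Field k] {r : ℕ}

/-- the parametrisation `(1 : z : z^2 : z^3)` -/
noncomputable def cubic (k : Type*) [Field k] : MvPolynomial (Fin 4) k →ₐ[k] Polynomial k :=
  aeval fun i : Fin 4 => (Polynomial.X : Polynomial k) ^ (i : ℕ)

lemma cubic_X (i : Fin 4) : cubic k (X i) = (Polynomial.X : Polynomial k) ^ (i : ℕ) := by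
  simp [cubic]

lemma c0 : cubic k (X 0) = 1 := by rw [cubic_X]; simp
lemma c1 : cubic k (X 1) = Polynomial.X := by rw [cubic_X]; simp
lemma c2 : cubic k (X 2) = Polynomial.X ^ 2 := by rw [cubic_X]; simp
lemma c3 : cubic k (X 3) = Polynomial.X ^ 3 := by
  rw [cubic_X, show ((3 : Fin 4) : ℕ) = 3 from rfl]

lemma cubic_F : cubic k (F k r) = 0 := by
  simp only [F, map_sub, map_mul, map_pow, c0, c1, c2, c3]
  ring

lemma cubic_of_dvd {a : MvPolynomial (Fin 4) k} (h : F k r ∣ a) : cubic k a = 0 := by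
  obtain ⟨b, rfl⟩ := h
  rw [map_mul, cubic_F, zero_mul]

lemma X_pow_sub_ne : (Polynomial.X ^ (r + 1) - 1 : Polynomial k) ≠ 0 := by
  intro h
  have := congrArg (fun p => Polynomial.coeff p 0) h
  simp at this

variable (hr : ((r : k) + 2) = 0)

include hr

lemma cubic3 : cubic k (pderiv 3 (F k r)) =
    -(Polynomial.X ^ (2 * r + 2) * (Polynomial.X ^ (r + 1) - 1)) := by
  rw [pd3 hr]
  simp only [map_neg, map_sub, map_mul, map_pow, c0, c1, c2, c3]
  ring

lemma cubic2 : cubic k (pderiv 2 (F k r)) =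
    Polynomial.X ^ (2 * r + 2) * (Polynomial.X ^ (r + 1) - 1) *
      (2 * Polynomial.X + Polynomial.X ^ (r + 2)) := by
  rw [pd2 hr]
  simp only [map_neg, map_sub, map_add, map_mul, map_pow, map_ofNat, c0, c1, c2, c3]
  ring

lemma cubic0 : cubic k (pderiv 0 (F k r)) =
    Polynomial.X ^ (3 * r + 6) * (Polynomial.X ^ (r + 1) - 1) := by
  rw [pd0 hr]
  simp only [map_neg, map_sub, map_mul, map_pow, c0, c1, c2, c3]
  ring

lemma not_dvd0 : ¬ F k r ∣ pderiv 0 (F k r) := by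
  intro h
  have h1 := cubic_of_dvd h
  rw [cubic0 hr] at h1
  rcases mul_eq_zero.1 h1 with h1 | h1
  · exact pow_ne_zero _ Polynomial.X_ne_zero h1
  · exact X_pow_sub_ne h1

lemma not_dvd3 : ¬ F k r ∣ pderiv 3 (F k r) := by
  intro h
  have h1 := cubic_of_dvd h
  rw [cubic3 hr, neg_eq_zero] at h1
  rcases mul_eq_zero.1 h1 with h1 | h1
  · exact pow_ne_zero _ Polynomial.X_ne_zero h1
  · exact X_pow_sub_ne h1

omit hr in
lemma not_dvd_X1 : ¬ F k r ∣ X 1 := by
  intro h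
  have h1 := cubic_of_dvd h
  rw [c1] at h1
  exact Polynomial.X_ne_zero h1

omit hr in
lemma not_dvd_X2 : ¬ F k r ∣ X 2 := by
  intro h
  have h1 := cubic_of_dvd h
  rw [c2] at h1
  exact pow_ne_zero _ Polynomial.X_ne_zero h1

/-- `x1 x2 F_0` -/
lemma G0_eq : X 1 * X 2 * pderiv 0 (F k r) =
    X 1 ^ (r + 2) * (X 2 * X 3 ^ (r + 2) - X 3 * X 2 ^ (r + 2)) := by
  rw [pd0 hr]; ring

lemma G3_eq : X 1 * X 2 * pderiv 3 (F k r) =
    -(X 2 ^ (r + 2) * (X 0 * X 1 ^ (r + 2) - X 1 * X 0 ^ (r + 2))) := by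
  rw [pd3 hr]; ring

lemma d00 : pderiv 0 (X 1 * X 2 * pderiv 0 (F k r)) = 0 := by
  rw [G0_eq hr]
  simp only [map_sub, Derivation.leibniz, pd_pow_q hr, smul_eq_mul]
  rw [pderiv_X_of_ne (by decide : (2 : Fin 4) ≠ 0), pderiv_X_of_ne (by decide : (3 : Fin 4) ≠ 0)]
  ring

lemma d30 : pderiv 3 (X 1 * X 2 * pderiv 0 (F k r)) = -(X 1 * X 2) ^ (r + 2) := by
  rw [G0_eq hr]
  simp only [map_sub, Derivation.leibniz, pd_pow_q hr, smul_eq_mul]
  rw [pderiv_X_of_ne (by decide : (2 : Fin 4) ≠ 3), pderiv_X_self]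
  ring

lemma d33 : pderiv 3 (X 1 * X 2 * pderiv 3 (F k r)) = 0 := by
  rw [G3_eq hr]
  simp only [map_sub, map_neg, Derivation.leibniz, pd_pow_q hr, smul_eq_mul]
  rw [pderiv_X_of_ne (by decide : (0 : Fin 4) ≠ 3), pderiv_X_of_ne (by decide : (1 : Fin 4) ≠ 3)]
  ring

lemma d03 : pderiv 0 (X 1 * X 2 * pderiv 3 (F k r)) = -(X 1 * X 2) ^ (r + 2) := by
  rw [G3_eq hr]
  simp only [map_sub, map_neg, Derivation.leibniz, pd_pow_q hr, smul_eq_mul]
  rw [pderiv_X_of_ne (by decide : (1 : Fin 4) ≠ 0), pderiv_X_self]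
  ring

/-- the polynomial form of the answer to Q1 -/
theorem gauss (p : ℕ) [hp : Fact p.Prime] [CharP k p] (hp2 : p ≠ 2) (hF : Prime (F k r))
    (A : Fin 4 → MvPolynomial (Fin 4) k)
    (hA : ∀ i j, F k r ∣ pderiv i (F k r) * A j ^ p - pderiv j (F k r) * A i ^ p) :
    ∀ i, F k r ∣ A i := by
  set G0 : MvPolynomial (Fin 4) k := X 1 * X 2 * pderiv 0 (F k r) with hG0
  set G3 : MvPolynomial (Fin 4) k := X 1 * X 2 * pderiv 3 (F k r) with hG3
  set w : MvPolynomial (Fin 4) k := (X 1 * X 2) ^ (r + 2) with hw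
  have hpow : ∀ (i : Fin 4) (a : MvPolynomial (Fin 4) k), pderiv i (a ^ p) = 0 := by
    intro i a
    rw [Derivation.leibniz_pow, nsmul_eq_mul]
    have h : ((p : ℕ) : MvPolynomial (Fin 4) k) = C ((p : ℕ) : k) := (map_natCast C _).symm
    rw [h, CharP.cast_eq_zero, map_zero, zero_mul]
  have hX12 : ¬ F k r ∣ X 1 * X 2 := fun h => (hF.dvd_or_dvd h).elim not_dvd_X1 not_dvd_X2
  have hwF : ¬ F k r ∣ w := fun h => hX12 (hF.dvd_of_dvd_pow h)
  have hG0F : ¬ F k r ∣ G0 := fun h => (hF.dvd_or_dvd h).elim hX12 (not_dvd0 hr)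
  have hG3F : ¬ F k r ∣ G3 := fun h => (hF.dvd_or_dvd h).elim hX12 (not_dvd3 hr)
  have h2 : ¬ F k r ∣ (2 : MvPolynomial (Fin 4) k) := by
    intro h
    have h1 := cubic_of_dvd h
    rw [map_ofNat] at h1
    have h3 : (Polynomial.C (2 : k)) = 0 := by
      rw [map_ofNat]; exact h1
    rw [Polynomial.C_eq_zero] at h3
    have h4 : ((2 : ℕ) : k) = 0 := by exact_mod_cast h3
    rw [CharP.cast_eq_zero_iff k p] at h4
    exact hp2 ((Nat.prime_dvd_prime_iff_eq hp.out Nat.prime_two).1 h4)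
  set T : MvPolynomial (Fin 4) k := G0 * A 3 ^ p - G3 * A 0 ^ p with hT
  have hTF : F k r ∣ T := by
    have : T = X 1 * X 2 * (pderiv 0 (F k r) * A 3 ^ p - pderiv 3 (F k r) * A 0 ^ p) := by
      rw [hT, hG0, hG3]; ring
    rw [this]
    exact (hA 0 3).mul_left _
  -- the derivation
  have hD : F k r ∣ G0 * pderiv 3 T - G3 * pderiv 0 T := by
    obtain ⟨c, hc⟩ := hTF
    have : G0 * pderiv 3 T - G3 * pderiv 0 T = F k r * (G0 * pderiv 3 c - G3 * pderiv 0 c) := by
      rw [hc, Derivation.leibniz, Derivation.leibniz, smul_eq_mul, smul_eq_mul, smul_eq_mul,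
        smul_eq_mul, hG0, hG3]
      ring
    rw [this]
    exact dvd_mul_right _ _
  have L : ∀ (i : Fin 4) (G a : MvPolynomial (Fin 4) k), pderiv i (G * a ^ p) = a ^ p * pderiv i G := by
    intro i G a
    rw [Derivation.leibniz, hpow, smul_zero, zero_add, smul_eq_mul]
  have hT3 : pderiv 3 T = -w * A 3 ^ p := by
    rw [hT, map_sub, L, L, hG0, hG3, d30 hr, d33 hr, ← hw]
    ring
  have hT0 : pderiv 0 T = w * A 0 ^ p := by
    rw [hT, map_sub, L, L, hG0, hG3, d00 hr, d03 hr, ← hw]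
    ring
  rw [hT3, hT0] at hD
  have h5 : F k r ∣ 2 * (w * (G3 * A 0 ^ p)) := by
    have h6 := dvd_sub (hTF.mul_left (-w)) hD
    have h7 : -w * T - (G0 * (-w * A 3 ^ p) - G3 * (w * A 0 ^ p)) = 2 * (w * (G3 * A 0 ^ p)) := by
      rw [hT]; ring
    rwa [h7] at h6
  have h0 : F k r ∣ A 0 := by
    rcases hF.dvd_or_dvd h5 with h | h
    · exact absurd h h2
    rcases hF.dvd_or_dvd h with h | h
    · exact absurd h hwF
    rcases hF.dvd_or_dvd h with h | h
    · exact absurd h hG3F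
    exact hF.dvd_of_dvd_pow h
  intro i
  have h8 : F k r ∣ pderiv 0 (F k r) * A i ^ p := by
    have h9 : F k r ∣ pderiv i (F k r) * A 0 ^ p :=
      (h0.trans (dvd_pow_self _ hp.out.ne_zero)).mul_left _
    have := dvd_add (hA 0 i) h9
    rwa [sub_add_cancel] at this
  rcases hF.dvd_or_dvd h8 with h | h
  · exact absurd h (not_dvd0 hr)
  · exact hF.dvd_of_dvd_pow h

/-- the twisted cubic -/
theorem cubic_ratio (p : ℕ) [hp : Fact p.Prime] [CharP k p] (hp2 : p ≠ 2) (a b : Polynomial k)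
    (hb : b ≠ 0) : cubic k (pderiv 2 (F k r)) * b ^ p ≠ a ^ p * cubic k (pderiv 3 (F k r)) := by
  intro h
  rw [cubic2 hr, cubic3 hr] at h
  have hne : (Polynomial.X ^ (2 * r + 2) * (Polynomial.X ^ (r + 1) - 1) : Polynomial k) ≠ 0 :=
    mul_ne_zero (pow_ne_zero _ Polynomial.X_ne_zero) (X_pow_sub_ne)
  have h1 : (2 * Polynomial.X + Polynomial.X ^ (r + 2)) * b ^ p = -(a ^ p) := by
    apply mul_left_cancel₀ hne
    linear_combination h
  have hpc : ((p : ℕ) : Polynomial k) = 0 := by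
    have h : ((p : ℕ) : Polynomial k) = Polynomial.C ((p : ℕ) : k) := (map_natCast Polynomial.C _).symm
    rw [h, CharP.cast_eq_zero, map_zero]
  have hrc : ((r + 2 : ℕ) : Polynomial k) = 0 := by
    have h : ((r + 2 : ℕ) : Polynomial k) = Polynomial.C ((r + 2 : ℕ) : k) :=
      (map_natCast Polynomial.C _).symm
    rw [h]
    push_cast
    rw [hr, map_zero]
  have hpow : ∀ a : Polynomial k, Polynomial.derivative (a ^ p) = 0 := by
    intro a
    rw [Polynomial.derivative_pow, map_natCast, hpc, zero_mul, zero_mul]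
  have h2 := congrArg Polynomial.derivative h1
  rw [Polynomial.derivative_mul, Polynomial.derivative_neg, hpow, hpow, mul_zero, add_zero, neg_zero,
    Polynomial.derivative_add, Polynomial.derivative_mul, Polynomial.derivative_X_pow,
    map_natCast, hrc, zero_mul, add_zero, Polynomial.derivative_X, mul_one,
    Polynomial.derivative_ofNat, zero_mul, zero_add] at h2
  rcases mul_eq_zero.1 h2 with h3 | h3
  · have h3' : (Polynomial.C (2 : k)) = 0 := by
      rw [map_ofNat]; exact h3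
    rw [Polynomial.C_eq_zero] at h3'
    have h4 : ((2 : ℕ) : k) = 0 := by exact_mod_cast h3'
    rw [CharP.cast_eq_zero_iff k p] at h4
    exact hp2 ((Nat.prime_dvd_prime_iff_eq hp.out Nat.prime_two).1 h4)
  · exact hb (pow_eq_zero_iff hp.out.ne_zero |>.1 h3)

end Pool.Agent.R49.FN
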