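import Pool.Agent.R49.FN.Base
set_option autoImplicit false

/-!
# Irreducibility of the surface
-/

namespace Pool.Agent.R49.FN

section poly

open Polynomial

theorem irr {B : Type*} [CommRing B] [IsDomain B] (q : ℕ) (hq : 2 ≤ q) (β γ ρ : B) (hβ : β ≠ 0)
    (hρ : ρ ≠ 0) :
    Irreducible ((X * C (C γ) - X ^ q) * C (X ^ q - X * C β) - C (C ρ) : B[X][X]) := by
  set E : B[X] := X ^ q - X * C β with hE
  set P : B[X][X] := (X * C (C γ) - X ^ q) * C E - C (C ρ) with hP
  have hcoef : ∀ n : ℕ, P.coeff n =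
      (if n = 1 then C γ * E else 0) - (if n = q then E else 0) - (if n = 0 then C ρ else 0) := by
    intro n
    rw [hP, coeff_sub, coeff_mul_C, coeff_sub, coeff_mul_C, coeff_X, coeff_X_pow, coeff_C]
    by_cases h1 : n = 1
    · subst h1
      have : (1 : ℕ) ≠ q := by omega
      simp [this]
    · by_cases h2 : n = q
      · subst h2
        have : n ≠ 0 := by omega
        simp [this, h1, Ne.symm h1]
      · simp [h1, h2, Ne.symm h1]
  have hE1 : E.coeff 1 = -β := by
    rw [hE, coeff_sub, coeff_X_pow, coeff_mul_C, coeff_X_one]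
    have : (1 : ℕ) ≠ q := by omega
    simp [this]
  have hEq : E.coeff q = 1 := by
    rw [hE, coeff_sub, coeff_X_pow, coeff_mul_C, coeff_X]
    have : (1 : ℕ) ≠ q := by omega
    simp [this]
  have hE0 : E.coeff 0 = 0 := by
    rw [hE, coeff_sub, coeff_X_pow, coeff_mul_C, coeff_X_zero]
    have : (0 : ℕ) ≠ q := by omega
    simp [this]
  have hEne : E ≠ 0 := by
    intro h
    rw [h] at hEq
    simp at hEq
  have hPq : P.coeff q = -E := by
    rw [hcoef]
    have h1 : q ≠ 1 := by omega
    have h2 : q ≠ 0 := by omega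
    simp [h1, h2]
  have hP0 : P.coeff 0 = -C ρ := by
    rw [hcoef]
    have h2 : (0 : ℕ) ≠ q := by omega
    simp [h2]
  have hdeg : P.natDegree = q := by
    apply natDegree_eq_of_le_of_coeff_ne_zero
    · rw [natDegree_le_iff_coeff_eq_zero]
      intro N hN
      rw [hcoef]
      have h1 : N ≠ 1 := by omega
      have h2 : N ≠ 0 := by omega
      have h3 : N ≠ q := by omega
      simp [h1, h2, h3]
    · rw [hPq]
      simpa using hEne
  have hPne : P ≠ 0 := by
    intro h
    rw [h] at hdeg
    simp at hdeg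
    omega
  have hlead : P.leadingCoeff = -E := by rw [leadingCoeff, hdeg, hPq]
  have hmap : P.map (constantCoeff : B[X] →+* B) = C (-ρ) := by
    ext n
    rw [coeff_map, hcoef, coeff_C]
    have hc : constantCoeff E = 0 := hE0
    by_cases h0 : n = 0
    · subst h0
      have h2 : (0 : ℕ) ≠ q := by omega
      simp [h2]
    · by_cases h1 : n = 1
      · subst h1
        have h2 : (1 : ℕ) ≠ q := by omega
        simp [h2, hE0]
      · by_cases h3 : n = q
        · subst h3
          simp [h0, h1, hE0]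
        · simp [h0, h1, h3]
  -- a constant factor is a unit
  have hconst : ∀ U V : B[X][X], P = U * V → U.natDegree = 0 → IsUnit U := by
    intro U V hUV hU
    obtain ⟨u, rfl⟩ := natDegree_eq_zero.1 hU
    have hd : ∀ n, u ∣ P.coeff n := by
      intro n
      rw [hUV, coeff_C_mul]
      exact dvd_mul_right _ _
    have h1 : u ∣ C ρ := by
      have := hd 0
      rwa [hP0, dvd_neg] at this
    have h2 : u ∣ E := by
      have := hd q
      rwa [hPq, dvd_neg] at this
    have h3 : u.natDegree = 0 := by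
      have h4 := natDegree_le_of_dvd h1 (by simpa using hρ)
      rw [natDegree_C] at h4
      omega
    obtain ⟨c, rfl⟩ := natDegree_eq_zero.1 h3
    obtain ⟨s, hs⟩ := h2
    have h5 : c * s.coeff q = 1 := by rw [← coeff_C_mul, ← hs, hEq]
    exact isUnit_C.2 (isUnit_C.2 (IsUnit.of_mul_eq_one _ h5))
  refine ⟨?_, ?_⟩
  · intro h
    have := natDegree_eq_zero_of_isUnit h
    omega
  · intro U V hUV
    by_cases hU : U.natDegree = 0
    · exact Or.inl (hconst U V hUV hU)
    by_cases hV : V.natDegree = 0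
    · exact Or.inr (hconst V U (by rw [hUV, mul_comm]) hV)
    exfalso
    have h1 : U.map constantCoeff * V.map constantCoeff = C (-ρ) := by
      rw [← Polynomial.map_mul, ← hUV, hmap]
    have hne : U.map constantCoeff * V.map constantCoeff ≠ 0 := by
      rw [h1]; simpa using hρ
    have h2 : (U.map constantCoeff).natDegree + (V.map constantCoeff).natDegree = 0 := by
      rw [← natDegree_mul (left_ne_zero_of_mul hne) (right_ne_zero_of_mul hne), h1, natDegree_C]
    have key : ∀ W : B[X][X], (W.map (constantCoeff : B[X] →+* B)).natDegree = 0 →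
        W.natDegree ≠ 0 → X ∣ W.leadingCoeff := by
      intro W hW hW'
      rw [X_dvd_iff]
      have : (W.map (constantCoeff : B[X] →+* B)).coeff W.natDegree = 0 :=
        coeff_eq_zero_of_natDegree_lt (by omega)
      rwa [coeff_map] at this
    have h3 := mul_dvd_mul (key U (by omega) hU) (key V (by omega) hV)
    rw [← leadingCoeff_mul, ← hUV, hlead, dvd_neg] at h3
    obtain ⟨c, hc⟩ := h3
    have h4 : E.coeff 1 = 0 := by
      rw [hc, mul_assoc, coeff_X_mul, coeff_X_mul_zero]
    rw [hE1, neg_eq_zero] at h4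
    exact hβ h4

end poly

open MvPolynomial

/-- the surface is irreducible over every field -/
theorem F_irr (k : Type*) [Field k] (r : ℕ) : Irreducible (F k r) := by
  classical
  set σ : Fin 4 ≃ Fin 4 := Equiv.ofBijective ![0, 2, 3, 1] (by decide) with hσ
  set Ψ : MvPolynomial (Fin 4) k ≃+* Polynomial (Polynomial (MvPolynomial (Fin 2) k)) :=
    ((renameEquiv k σ).trans (finSuccEquiv k 3)).toRingEquiv.trans
      (Polynomial.mapEquiv (finSuccEquiv k 2).toRingEquiv) with hΨ
  have e0 : Ψ (X 0) = Polynomial.X := by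
    simp [hΨ, hσ, Polynomial.mapEquiv, finSuccEquiv_X_zero]
  have e1 : Ψ (X 1) = Polynomial.C (Polynomial.C (X 0)) := by
    have h1 : (2 : Fin 4) = (1 : Fin 3).succ := rfl
    have h2 : (1 : Fin 3) = (0 : Fin 2).succ := rfl
    simp [hΨ, hσ, Polynomial.mapEquiv]
    rw [h1, finSuccEquiv_X_succ, Polynomial.map_C]
    simp
    rw [h2, finSuccEquiv_X_succ]
  have e2 : Ψ (X 2) = Polynomial.C (Polynomial.C (X 1)) := by
    have h1 : (3 : Fin 4) = (2 : Fin 3).succ := rfl
    have h2 : (2 : Fin 3) = (1 : Fin 2).succ := rfl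
    simp [hΨ, hσ, Polynomial.mapEquiv]
    rw [h1, finSuccEquiv_X_succ, Polynomial.map_C]
    simp
    rw [h2, finSuccEquiv_X_succ]
  have e3 : Ψ (X 3) = Polynomial.C Polynomial.X := by
    have h1 : (1 : Fin 4) = (0 : Fin 3).succ := rfl
    simp [hΨ, hσ, Polynomial.mapEquiv]
    rw [h1, finSuccEquiv_X_succ, Polynomial.map_C]
    simp [finSuccEquiv_X_zero]
  rw [← MulEquiv.irreducible_iff Ψ]
  have hF : Ψ (F k r) = (Polynomial.X * Polynomial.C (Polynomial.C (X 0 ^ (r + 1))) -
      Polynomial.X ^ (r + 2)) * Polynomial.C (Polynomial.X ^ (r + 2) -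
        Polynomial.X * Polynomial.C (X 1 ^ (r + 1))) -
      Polynomial.C (Polynomial.C (X 0 * X 1 * (X 1 ^ (r + 1) - X 0 ^ (r + 1)) ^ 2)) := by
    simp only [F, map_sub, map_mul, map_pow, e0, e1, e2, e3]
  rw [hF]
  refine irr (r + 2) (by omega) _ _ _ (pow_ne_zero _ (X_ne_zero _)) ?_
  refine mul_ne_zero (mul_ne_zero (X_ne_zero _) (X_ne_zero _)) (pow_ne_zero _ ?_)
  intro h
  have h1 := congrArg (aeval (fun i : Fin 2 => if i = 0 then (0 : k) else 1)) h
  simp at h1

end Pool.Agent.R49.FN
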